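import Pool.Agent.H65.CRZ.TD
import Pool.Agent.H37.CV.All

/-!
# Board `crz_modules`: row LF

The L-functions of the primitive ray class characters of conductor `(q)` have a functional equation
of degree two.
-/

set_option autoImplicit false

open NumberField NumberField.InfinitePlace Complex Filter Topology MeasureTheory

namespace Pool.Agent.H70.CRZ

open Pool.Agent.H65.CRZ Pool.Agent.H28.RC Pool.Agent.H25.HK Pool.Agent.H37.CV

/-- complex powers of positive real numbers -/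
lemma cpow_exp {x : ℝ} (hx : 0 < x) (s : ℂ) : ((x : ℝ) : ℂ) ^ s = cexp ((Real.log x : ℂ) * s) := by
  rw [Complex.cpow_def_of_ne_zero (by exact_mod_cast hx.ne'), Complex.ofReal_log hx.le]

lemma cA_cpow {K : Type} [Field K] [NumberField K] {m : Ideal (𝓞 K)} (h : 0 < cnd K m) (s : ℂ) :
    ((cA K m : ℝ) : ℂ) ^ s = ((cnd K m : ℝ) : ℂ) ^ (s / 2) * (2 * (Real.pi : ℂ)) ^ (-s) := by
  have hpi : (0 : ℝ) < 2 * Real.pi := by positivity
  have hA : 0 < cA K m := by
    unfold cA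
    positivity
  have e1 : (2 * (Real.pi : ℂ)) = ((2 * Real.pi : ℝ) : ℂ) := by
    push_cast
    rfl
  have e2 : Real.log (cA K m) = Real.log (cnd K m) / 2 - Real.log (2 * Real.pi) := by
    unfold cA
    rw [Real.log_div (by positivity) hpi.ne', Real.log_sqrt h.le]
  rw [e1, cpow_exp hA, cpow_exp h, cpow_exp hpi, ← Complex.exp_add, e2]
  congr 1
  push_cast
  ring

lemma nm_top {K : Type} [Field K] [NumberField K] : nm (⊤ : Ideal (𝓞 K)) = 1 := by
  unfold nm
  rw [← Ideal.one_eq_top, map_one, Nat.cast_one]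

theorem lf_of (hEN : Pool.Agent.H37.CV.T_EN) (h1 : Pool.Agent.H65.CRZ.T_H1)
    (h2 : Pool.Agent.H65.CRZ.T_H2) (h3 : T_CQ) : T_LF := by
  intro K _ _ _ hK
  obtain ⟨hr, c, hc, hcq⟩ := h3 K hK
  obtain ⟨C₁, hC₁, hb₁⟩ := h1 K hr
  obtain ⟨C₂, hC₂, hb₂, -⟩ := h2 K
  refine ⟨max C₁ C₂, ⌈1 / c⌉₊, hC₁.trans (le_max_left _ _), ?_⟩
  intro q hq hq0 χ hχ
  have hf : χ.f = qi K q := hχ
  obtain ⟨hcA, hnm⟩ := hcq q hq
  have hA1 : 1 ≤ cA K (qi K q) := by
    rw [hcA]
    have h4 : 1 / c ≤ (q : ℝ) := (Nat.le_ceil _).trans (by exact_mod_cast hq0)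
    rw [div_le_iff₀ hc] at h4
    linarith
  have hne : χ.f ≠ ⊤ := by
    intro h4
    rw [← hf, h4, nm_top] at hnm
    have h5 : (2 : ℝ) ≤ q := by exact_mod_cast hq.two_le
    nlinarith
  obtain ⟨Z, Λ, ε, hZ, hΛ, hΛ1, hε, hΛ2, -⟩ := hEN K χ hne
  have hex : ∃ Z, IsEnt χ Z := ⟨Z, hZ⟩
  have hent : IsEnt χ (Zx χ) := by
    unfold Zx
    rw [dif_pos hex]
    exact hex.choose_spec
  have hZx : Zx χ = Z := by
    have ha : AnalyticOnNhd ℂ (Zx χ) Set.univ :=
      hent.1.differentiableOn.analyticOnNhd isOpen_univ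
    have hb : AnalyticOnNhd ℂ Z Set.univ := hZ.1.differentiableOn.analyticOnNhd isOpen_univ
    have hev : Zx χ =ᶠ[𝓝 (2 : ℂ)] Z := by
      have ho : IsOpen {s : ℂ | 1 < s.re} := isOpen_lt continuous_const Complex.continuous_re
      have h2' : (2 : ℂ) ∈ {s : ℂ | 1 < s.re} := by
        simp
      filter_upwards [ho.mem_nhds h2'] with s hs
      rw [hent.2 s hs, hZ.2 s hs]
    funext s
    exact ha.eqOn_of_preconnected_of_eventuallyEq hb isPreconnected_univ (Set.mem_univ _) hev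
      (Set.mem_univ s)
  have hcnd : 0 < cnd K (qi K q) := by
    by_contra h4
    have h5 : cA K (qi K q) = 0 := by
      unfold cA
      rw [Real.sqrt_eq_zero_of_nonpos (not_lt.1 h4), zero_div]
    rw [h5] at hA1
    linarith
  refine ⟨hent, hent.1, ⟨fun s => Λ s / 2, ε, hΛ.div_const 2, hε, ?_, ?_⟩, ?_, ?_⟩
  · intro s hs
    change Λ s / 2 = _
    rw [hΛ1 s hs, hZx, hf, hr, pow_one, cA_cpow hcnd, Complex.Gammaℂ_def]
    ring
  · intro s
    change Λ s / 2 = ε * (starRingEnd ℂ) (Λ (1 - (starRingEnd ℂ) s) / 2)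
    rw [map_div₀, map_ofNat, ← mul_div_assoc, ← hΛ2 s]
  · intro s hs
    have h4 := hb₁ χ hne (by rw [hf]; exact hA1) (Zx χ) hent s hs
    rw [hf] at h4
    refine h4.trans (Real.rpow_le_rpow_of_exponent_le ?_ (le_max_left _ _))
    have h5 : (1 : ℝ) ≤ 2 + |s.im| := by
      have := abs_nonneg s.im
      linarith
    nlinarith
  · intro s hs
    have h4 := (hb₂ χ s hs).2
    rw [hent.2 s (by linarith)]
    refine h4.trans (mul_le_mul_of_nonneg_right (le_max_right _ _) (by positivity))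

theorem pf_LF (h1 : Pool.Agent.H65.CRZ.T_H1) (h2 : Pool.Agent.H65.CRZ.T_H2) (h3 : T_CQ) : T_LF :=
  lf_of Pool.Agent.H37.CV.a_EN h1 h2 h3

end Pool.Agent.H70.CRZ
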